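import Pool.Agent.H67.AT.Targets
import Pool.Agent.H67.AT.Ser

set_option autoImplicit false
set_option linter.unusedSectionVars false

open Finset PowerSeries Pool.Agent.H67.AT

namespace Pool.Agent.H61.AT

section net

variable {X E Y : Type} [Fintype X] [DecidableEq X] [Fintype E] [DecidableEq E] [Fintype Y]
  [DecidableEq Y] (G : Net X E Y)

theorem P_nn (x z : X) : 0 ≤ G.P x z := by
  unfold Net.P
  rw [Matrix.of_apply]
  refine Finset.sum_nonneg fun e _ => ?_
  split_ifs
  · exact G.nonneg e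
  · exact le_rfl

theorem P_row (x : X) : ∑ z, G.P x z ≤ 1 := by
  refine le_trans (le_of_eq ?_) (G.out_le x)
  unfold Net.P
  simp only [Matrix.of_apply]
  rw [Finset.sum_comm]
  refine Finset.sum_congr rfl fun e _ => ?_
  by_cases h : G.src e = x
  · simp [h]
  · simp [h]

theorem Pp_nn (n : ℕ) (x z : X) : 0 ≤ (G.P ^ n) x z := by
  induction n generalizing x z with
  | zero => rw [pow_zero, Matrix.one_apply]; split_ifs <;> norm_num
  | succ n ih =>
    rw [pow_succ, Matrix.mul_apply]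
    exact Finset.sum_nonneg fun u _ => mul_nonneg (ih x u) (P_nn G u z)

theorem Pp_row (n : ℕ) (x : X) : ∑ z, (G.P ^ n) x z ≤ 1 := by
  induction n generalizing x with
  | zero => rw [pow_zero]; simp [Matrix.one_apply]
  | succ n ih =>
    rw [pow_succ]
    simp only [Matrix.mul_apply]
    rw [Finset.sum_comm]
    calc ∑ u, ∑ z, (G.P ^ n) x u * G.P u z = ∑ u, (G.P ^ n) x u * ∑ z, G.P u z := by
          simp only [Finset.mul_sum]
      _ ≤ ∑ u, (G.P ^ n) x u * 1 :=
          Finset.sum_le_sum fun u _ => mul_le_mul_of_nonneg_left (P_row G u) (Pp_nn G n x u)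
      _ ≤ 1 := by simpa using ih x

theorem row_mul (A : Matrix X X ℝ) (hA : ∀ x z, 0 ≤ A x z) (n : ℕ) (x : X) :
    ∑ z, (A * G.P ^ n) x z ≤ ∑ z, A x z := by
  simp only [Matrix.mul_apply]
  rw [Finset.sum_comm]
  refine Finset.sum_le_sum fun u _ => ?_
  rw [← Finset.mul_sum]
  exact mul_le_of_le_one_right (hA x u) (Pp_row G n u)

theorem Fm_nn (f : E → ℝ) (hf : ∀ e, 0 ≤ f e) (x z : X) : 0 ≤ Fm G f x z := by
  unfold Fm
  rw [Matrix.of_apply]
  refine Finset.sum_nonneg fun e _ => ?_
  split_ifs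
  · exact mul_nonneg (G.nonneg e) (hf e)
  · exact le_rfl

theorem Fm_sum (f : E → ℝ) (n : ℕ) (x : X) :
    ∑ u, (G.P ^ n * Fm G f) x u = ∑ e, (G.P ^ n) x (G.src e) * G.wt e * f e := by
  have h1 : ∀ u, (G.P ^ n * Fm G f) x u =
      ∑ e, if G.tgt e = u then (G.P ^ n) x (G.src e) * G.wt e * f e else 0 := by
    intro u
    rw [Matrix.mul_apply]
    simp only [Fm, Matrix.of_apply, Finset.mul_sum]
    rw [Finset.sum_comm]
    refine Finset.sum_congr rfl fun e _ => ?_
    by_cases h : G.tgt e = u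
    · simp only [h, and_true, if_true, mul_ite, mul_zero]
      rw [Finset.sum_ite_eq]
      simp [mul_assoc]
    · simp [h]
  simp only [h1]
  rw [Finset.sum_comm]
  refine Finset.sum_congr rfl fun e _ => ?_
  simp

theorem c0_mul (A B : Matrix X X PS) (A' B' : Matrix X X ℝ)
    (hA : ∀ x z, coeff 0 (A x z) = A' x z) (hB : ∀ x z, coeff 0 (B x z) = B' x z) (x z : X) :
    coeff 0 ((A * B) x z) = (A' * B') x z := by
  rw [Matrix.mul_apply, Matrix.mul_apply, map_sum]
  refine Finset.sum_congr rfl fun u _ => ?_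
  rw [← hA, ← hB]
  simp

theorem c0_pow (A : Matrix X X PS) (A' : Matrix X X ℝ)
    (hA : ∀ x z, coeff 0 (A x z) = A' x z) (n : ℕ) (x z : X) :
    coeff 0 ((A ^ n) x z) = (A' ^ n) x z := by
  induction n generalizing x z with
  | zero =>
    rw [pow_zero, pow_zero, Matrix.one_apply, Matrix.one_apply]
    split_ifs <;> simp
  | succ n ih =>
    rw [pow_succ, pow_succ]
    exact c0_mul _ _ _ _ ih hA x z

end net

theorem pf_RCO (hQRC : T_QRC) (hFST : T_FST) (hSND : T_SND) : T_RCO := by
  intro X E Y _ _ _ _ _ _ G k L β good f s hk hf hs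
  set a : E → DS := es G k good β f (none : Idx X L) with ha
  set mk : ℕ → X → X → DS := mks (none : Idx X L) with hmk
  have hmk0 : ∀ l x x', mk l x x' = 0 := fun l x x' => rfl
  have haf : ∀ e, (a e).fst = 1 := by
    intro e
    rw [ha]
    simp [es]
  have has : ∀ e, (a e).snd = PowerSeries.C (f e) := by
    intro e
    rw [ha]
    simp [es]
  have hmkf : ∀ l x x', (mk l x x').fst = 0 := fun l x x' => by rw [hmk0]; rfl
  have hmknn : ∀ l x x', DNn (mk l x x') := fun l x x' => by rw [hmk0]; exact DNn.zero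
  have hann : ∀ e, DNn (a e) := fun e =>
    ⟨by rw [haf]; exact PNn.one, by rw [has]; exact PNn.C (hf e)⟩
  set T : Matrix X X PS := linm G.P ((2 : ℝ) ^ (L + 1) • ∑ y : Y, (0 : ℝ) • Mm G y) with hT
  have hTe : ∀ x z, T x z = PowerSeries.C (G.P x z) := by
    intro x z
    rw [hT]
    simp [linm]
  have hT0 : ∀ x z, coeff 0 (T x z) = G.P x z := by
    intro x z
    rw [hTe]
    simp
  have hTnn : MNn T := fun x z => by rw [hTe]; exact PNn.C (P_nn G x z)
  have hF := hFST X E Y G k a mk (fun _ => 0) (fun _ => le_rfl) hmkf (fun e => by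
    rw [haf, fst_lin]
    have : wo (fun _ : Y => (0 : ℝ)) (G.lt e) = 0 := by cases G.lt e <;> rfl
    rw [this]; simp) L
  obtain ⟨-, -, hS0, -⟩ := hQRC X E Y G k a mk hmkf
  set B : Matrix X X PS := qS G k a mk 0 with hB
  have hBe : ∀ x z, B x z = (2 : ℝ) • (∑ e, if G.src e = x ∧ G.tgt e = z then
      G.wt e • PowerSeries.C (f e) else 0) := by
    intro x z
    rw [hS0, hmk0]
    simp only [has, TrivSqZeroExt.snd_zero, smul_zero, add_zero]
  have hBnn : MNn B := fun x z => by
    rw [hBe]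
    refine PNn.smul (by norm_num) (PNn.sum fun e _ => ?_)
    split_ifs
    · exact PNn.smul (G.nonneg e) (PNn.C (hf e))
    · exact PNn.zero
  have hB0 : ∀ x z, coeff 0 (B x z) = ((2 : ℝ) • Fm G f) x z := by
    intro x z
    rw [hBe]
    simp only [Matrix.smul_apply, Fm, Matrix.of_apply, smul_eq_mul]
    rw [PowerSeries.coeff_smul, map_sum, smul_eq_mul]
    congr 1
    refine Finset.sum_congr rfl fun e _ => ?_
    split_ifs
    · simp
    · simp
  have hS := hSND X E Y G k a mk T B 0 L hann hmknn hmkf (fun l _ x x' => hmk0 l x x') hTnn hBnn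
    (fun l hl => (hF l hl).2) (MLe.refl _) L (by omega)
  rw [Nat.zero_add] at hS
  -- coefficient zero of the bound
  have hbound : ∀ x x', coeff 0 (qS G k a mk L x x') ≤
      (2 : ℝ) ^ L * ∑ i ∈ range (k ^ L),
        (G.P ^ i * ((2 : ℝ) • Fm G f) * G.P ^ (k ^ L - 1 - i)) x x' := by
    intro x x'
    refine (hS x x' 0).trans (le_of_eq ?_)
    rw [Matrix.smul_apply, PowerSeries.coeff_smul, smul_eq_mul, Matrix.sum_apply, map_sum]
    congr 1
    refine Finset.sum_congr rfl fun i _ => ?_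
    rw [pow_zero, mul_one, mul_one]
    exact c0_mul _ _ _ _ (c0_mul _ _ _ _ (c0_pow T G.P hT0 i) hB0) (c0_pow T G.P hT0 _) x x'
  have hFnn : ∀ i (x z : X), 0 ≤ (G.P ^ i * ((2 : ℝ) • Fm G f)) x z := by
    intro i x z
    rw [Matrix.mul_apply]
    refine Finset.sum_nonneg fun u _ => mul_nonneg (Pp_nn G i x u) ?_
    rw [Matrix.smul_apply, smul_eq_mul]
    exact mul_nonneg (by norm_num) (Fm_nn G f hf u z)
  have hrow : ∀ x, ∑ x', coeff 0 (qS G k a mk L x x') ≤
      (2 : ℝ) ^ L * ∑ i ∈ range (k ^ L), 2 * ∑ e, (G.P ^ i) x (G.src e) * G.wt e * f e := by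
    intro x
    refine (Finset.sum_le_sum fun x' _ => hbound x x').trans ?_
    rw [← Finset.mul_sum, Finset.sum_comm]
    refine mul_le_mul_of_nonneg_left (Finset.sum_le_sum fun i _ => ?_) (by positivity)
    refine (row_mul G _ (hFnn i) _ x).trans (le_of_eq ?_)
    rw [← Fm_sum, Matrix.mul_smul]
    simp only [Matrix.smul_apply, smul_eq_mul]
    rw [Finset.mul_sum]
  have hstep : ∀ x x', s x * (G.P ^ k ^ L) x x' *
      coeff 0 (qq G k good β f (none : Idx X L) L x x').snd = s x * coeff 0 (qS G k a mk L x x') := by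
    intro x x'
    rw [mul_assoc]
    unfold qS
    rw [Matrix.of_apply, PowerSeries.coeff_smul, smul_eq_mul]
    rfl
  calc ∑ x, ∑ x', s x * (G.P ^ k ^ L) x x' *
        coeff 0 (qq G k good β f (none : Idx X L) L x x').snd
      = ∑ x, s x * ∑ x', coeff 0 (qS G k a mk L x x') := by
        refine Finset.sum_congr rfl fun x _ => ?_
        rw [Finset.mul_sum]
        exact Finset.sum_congr rfl fun x' _ => hstep x x'
    _ ≤ ∑ x, s x * ((2 : ℝ) ^ L * ∑ i ∈ range (k ^ L), 2 *
          ∑ e, (G.P ^ i) x (G.src e) * G.wt e * f e) :=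
        Finset.sum_le_sum fun x _ => mul_le_mul_of_nonneg_left (hrow x) (hs x)
    _ = (2 : ℝ) ^ (L + 1) * G.ex s (k ^ L) f := by
        unfold Net.ex
        simp only [Finset.mul_sum]
        rw [Finset.sum_comm]
        refine Finset.sum_congr rfl fun i _ => Finset.sum_congr rfl fun x _ =>
          Finset.sum_congr rfl fun e _ => ?_
        rw [pow_succ]; ring

end Pool.Agent.H61.AT
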